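import Pool.Agent.R860.SL.Gen
import Pool.Agent.R860.SL.Det
import Pool.Agent.R860.SL.Haus

/-!
# Full strong law of large numbers for `d`-dimensional random convex sets in B-convex spaces
-/

set_option autoImplicit false

namespace Pool.Agent.Results.MP_d665d0_pr.FullStrongLaw

open MeasureTheory ProbabilityTheory Filter Topology
open scoped Pointwise

universe u v

/-- B-convexity of a real normed space. -/
def BConvex (X : Type v) [NormedAddCommGroup X] [NormedSpace ℝ X] : Prop :=
  ∃ k : ℕ, 2 ≤ k ∧ ∃ ε : ℝ, 0 < ε ∧ ∀ x : Fin k → X, (∀ i, ‖x i‖ ≤ 1) →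
    ∃ s : Fin k → ℝ, (∀ i, s i = 1 ∨ s i = -1) ∧ ‖∑ i, s i • x i‖ ≤ k * (1 - ε)

/-- The nonempty bounded convex subsets of `X` (representing the elements of `BC(X)`). -/
structure BC (X : Type v) [NormedAddCommGroup X] [NormedSpace ℝ X] where
  /-- the underlying set -/
  carrier : Set X
  nonempty : carrier.Nonempty
  bounded : Bornology.IsBounded carrier
  convex : Convex ℝ carrier

/-- The space `Z` of bounded continuous real functions on the unit sphere of the dual space. -/
abbrev Z (X : Type v) [NormedAddCommGroup X] [NormedSpace ℝ X] : Type v :=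
  BoundedContinuousFunction (Metric.sphere (0 : StrongDual ℝ X) 1) ℝ

section

variable {X : Type v} [NormedAddCommGroup X] [NormedSpace ℝ X]

/-- `Z` carries its Borel σ-algebra. -/
noncomputable instance : MeasurableSpace (Z X) := borel (Z X)

instance : BorelSpace (Z X) := ⟨rfl⟩

/-- The dimension of the affine hull. -/
noncomputable def BC.dim (A : BC X) : Cardinal.{v} :=
  Module.rank ℝ (affineSpan ℝ A.carrier).direction

/-- The embedding `R(A)(x*) = sup {x*(a) : a ∈ A}` of `BC(X)` in `Z`. -/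
noncomputable def R (A : BC X) : Z X :=
  BoundedContinuousFunction.ofNormedAddCommGroup
    (fun f : Metric.sphere (0 : StrongDual ℝ X) 1 => sSup ((f : StrongDual ℝ X) '' A.carrier))
    ((R860.SL.supp_cont A.nonempty A.bounded).comp continuous_subtype_val)
    A.bounded.exists_pos_norm_le.choose
    (fun f => R860.SL.supp_bound A.nonempty A.bounded.exists_pos_norm_le.choose_spec.1.le
      A.bounded.exists_pos_norm_le.choose_spec.2 (by
        have := f.2
        rwa [mem_sphere_zero_iff_norm] at this))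

/-- The `n`-th Minkowski average `(A 0 + ... + A (n - 1)) / n`. -/
noncomputable def avg (A : ℕ → BC X) (n : ℕ) : Set X :=
  (n : ℝ)⁻¹ • ∑ i ∈ Finset.range n, (A i).carrier

end

/-- The full form of the strong law of large numbers holds for the class `K` of sets:
for every uniformly bounded independent sequence `Ψ` of random sets with values in `K` and with
expectations `U n`, the Hausdorff distance of the averages of `Ψ` and of `U` tends to `0` a.e. -/
def FullSLLN (X : Type v) [NormedAddCommGroup X] [NormedSpace ℝ X] (K : Set (BC X)) : Prop :=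
  ∀ (Ω : Type u) [MeasurableSpace Ω] (P : Measure Ω) [IsProbabilityMeasure P]
    (Ψ : ℕ → Ω → BC X) (U : ℕ → BC X),
    (∀ n ω, Ψ n ω ∈ K) →
    (∀ n, Measurable fun ω => R (Ψ n ω)) →
    (∃ C : ℝ, ∀ n ω, ∀ a ∈ (Ψ n ω).carrier, ‖a‖ ≤ C) →
    iIndepFun (fun n ω => R (Ψ n ω)) P →
    (∀ n, Integrable (fun ω => R (Ψ n ω)) P ∧ ∫ ω, R (Ψ n ω) ∂P = R (U n)) →
    ∀ᵐ ω ∂P, Tendsto (fun n : ℕ => Metric.hausdorffDist (avg (fun i => Ψ i ω) n) (avg U n))
      atTop (𝓝 0)

section

variable {X : Type v} [NormedAddCommGroup X] [NormedSpace ℝ X]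

lemma R_apply (A : BC X) (f : Metric.sphere (0 : StrongDual ℝ X) 1) :
    R A f = sSup ((f : StrongDual ℝ X) '' A.carrier) := rfl

lemma good (A : BC X) : R860.SL.Good A.carrier := ⟨A.nonempty, A.bounded, A.convex⟩

lemma avg_good (A : ℕ → BC X) (n : ℕ) : R860.SL.Good (avg A n) :=
  (R860.SL.good_sum (fun i => good (A i)) _).smul _

lemma sup_avg (A : ℕ → BC X) (n : ℕ) (f : StrongDual ℝ X) (hf : ‖f‖ = 1) :
    sSup (f '' avg A n) = (n : ℝ)⁻¹ *
      ∑ i ∈ Finset.range n, R (A i) ⟨f, by rw [mem_sphere_zero_iff_norm]; exact hf⟩ := by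
  rw [avg, R860.SL.sup_smul f (by positivity), R860.SL.sup_sum (fun i => good (A i))]
  rfl

lemma haus_avg_le (A B : ℕ → BC X) (n : ℕ) :
    Metric.hausdorffDist (avg A n) (avg B n)
      ≤ ‖∑ i ∈ Finset.range n, (R (A i) - R (B i))‖ / n := by
  apply R860.SL.haus_le (avg_good A n) (avg_good B n) (by positivity)
  intro f hf
  rw [sup_avg A n f hf, sup_avg B n f hf, ← mul_sub, ← Finset.sum_sub_distrib, abs_mul,
    abs_of_nonneg (show (0 : ℝ) ≤ (n : ℝ)⁻¹ by positivity), div_eq_inv_mul]
  apply mul_le_mul_of_nonneg_left _ (by positivity)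
  have h1 := (∑ i ∈ Finset.range n, (R (A i) - R (B i))).norm_coe_le_norm
    ⟨f, by rw [mem_sphere_zero_iff_norm]; exact hf⟩
  refine le_trans (le_of_eq ?_) h1
  rw [Real.norm_eq_abs, BoundedContinuousFunction.coe_sum, Finset.sum_apply]
  rfl

theorem main [CompleteSpace X] (hX : BConvex X) (d : ℕ) :
    FullSLLN.{u} X {A | A.dim ≤ d} := by
  intro Ω _ P _ Ψ U hK _ hb hind hE
  obtain ⟨k, hk, ε, hε, hBC⟩ := hX
  obtain ⟨C', hC'⟩ := hb
  set C : ℝ := max C' 0 with hC
  have hC0 : 0 ≤ C := le_max_right _ _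
  have hCb : ∀ n ω, ∀ a ∈ (Ψ n ω).carrier, ‖a‖ ≤ C :=
    fun n ω a ha => (hC' n ω a ha).trans (le_max_left _ _)
  have hnorm : ∀ n ω, ‖R (Ψ n ω)‖ ≤ C := by
    intro n ω
    rw [BoundedContinuousFunction.norm_le hC0]
    intro f
    rw [R_apply, Real.norm_eq_abs]
    apply R860.SL.supp_bound (Ψ n ω).nonempty hC0 (hCb n ω)
    have := f.2
    rwa [mem_sphere_zero_iff_norm] at this
  have key := R860.SL.vec_slln_gen (Y := fun n ω => R (Ψ n ω)) (fun n => (hE n).1) hind hnorm (by
    intro η hη
    obtain ⟨L, hL, hdet⟩ := R860.SL.det_bound hk hε hBC d hC0 hη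
    refine ⟨L, hL, fun m ω => ?_⟩
    exact hdet (fun i => (Ψ (m + i) ω).carrier) (fun i => (Ψ (m + i) ω).nonempty)
      (fun i => hCb (m + i) ω) (fun i => hK (m + i) ω) (fun i => R (Ψ (m + i) ω))
      (fun i f => rfl))
  filter_upwards [key] with ω hω
  apply squeeze_zero (fun n => Metric.hausdorffDist_nonneg) (fun n => haus_avg_le _ _ n)
  refine hω.congr ?_
  intro n
  congr 2
  apply Finset.sum_congr rfl
  intro i _
  rw [(hE i).2]

end

/-- **Full strong law.** Let `X` be a B-convex real Banach space and `d` a natural number. The full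
form of the SLLN holds for the class of random sets all of whose values have dimension exactly
`d`; more generally, it holds for the class of random sets all of whose values have dimension at
most `d`. -/
theorem result (X : Type v) [NormedAddCommGroup X] [NormedSpace ℝ X] [CompleteSpace X]
    (hX : BConvex X) (d : ℕ) :
    FullSLLN.{u} X {A | A.dim = d} ∧ FullSLLN.{u} X {A | A.dim ≤ d} := by
  refine ⟨?_, main hX d⟩
  intro Ω _ P _ Ψ U hK
  exact main hX d Ω P Ψ U (fun n ω => le_of_eq (hK n ω))

end Pool.Agent.Results.MP_d665d0_pr.FullStrongLaw
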